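import Mathlib

open Finset

namespace Pool.Agent.Results.MP_a0b46e_nt.Super

/-- `S_m(n)`. -/
def S (m n : ℕ) : ℚ :=
  ∑ k ∈ Icc 1 n, ((n.choose k : ℚ) ^ 2 * ((n + k).choose k : ℚ) ^ 2) / (k : ℚ) ^ (2 * m + 1)

/-- `u_m(n)`, the numerator of `S_m(n)` in lowest terms. -/
def u (m n : ℕ) : ℤ := (S m n).num

variable {p : ℕ} [hp : Fact p.Prime]

/-- The inverse of `k` in the `p`-adic integers. -/
noncomputable def iv (p : ℕ) [Fact p.Prime] (k : ℕ) : ℤ_[p] := Ring.inverse (k : ℤ_[p])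

lemma unit_k {k : ℕ} (h1 : 1 ≤ k) (h2 : k < p) : IsUnit (k : ℤ_[p]) := by
  rw [PadicInt.isUnit_iff]
  refine le_antisymm (PadicInt.norm_le_one _) (not_lt.1 fun h => ?_)
  have : ‖((k : ℤ) : ℤ_[p])‖ < 1 := by simpa using h
  rw [PadicInt.norm_int_lt_one_iff_dvd] at this
  have := Nat.le_of_dvd h1 (Int.natCast_dvd_natCast.1 this)
  omega

lemma mul_iv {k : ℕ} (h1 : 1 ≤ k) (h2 : k < p) : (k : ℤ_[p]) * iv p k = 1 :=
  Ring.mul_inverse_cancel _ (unit_k h1 h2)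

lemma coeff (k : ℕ) (h2 : k + 1 < p) : ∃ t : ℤ_[p],
    (((p - 1).choose (k + 1) * (p - 1 + (k + 1)).choose (k + 1) : ℕ) : ℤ_[p]) * (k + 1 : ℕ) ^ 2 =
      (-1) ^ k * p * (p - (k + 1 : ℕ)) * (1 + p ^ 2 * t) := by
  have hp1 : 1 ≤ p := by omega
  induction k with
  | zero =>
    refine ⟨0, ?_⟩
    simp only [zero_add, Nat.choose_one_right, Nat.sub_add_cancel hp1]
    push_cast [Nat.cast_sub hp1]
    ring
  | succ k ih =>
    obtain ⟨t, ht⟩ := ih (by omega)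
    have e1 := Nat.choose_succ_right_eq (p - 1) (k + 1)
    have e2 := Nat.add_one_mul_choose_eq (p - 1 + (k + 1)) (k + 1)
    have e1' : (((p - 1).choose (k + 1 + 1) : ℕ) : ℤ_[p]) * (k + 1 + 1 : ℕ) =
        ((p - 1).choose (k + 1) : ℕ) * (p - (k + 1 + 1 : ℕ)) := by
      rw [← Nat.cast_sub h2.le, ← Nat.cast_mul, ← Nat.cast_mul, e1]
      congr 2; omega
    have e2' : (((p - 1 + (k + 1 + 1)).choose (k + 1 + 1) : ℕ) : ℤ_[p]) * (k + 1 + 1 : ℕ) =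
        ((p - 1 + (k + 1)).choose (k + 1) : ℕ) * (p + (k + 1 : ℕ)) := by
      rw [← Nat.cast_add, ← Nat.cast_mul, ← Nat.cast_mul, ← add_assoc, ← e2, mul_comm]
      congr 2; omega
    have hi := mul_iv (p := p) (k := k + 1) (by omega) (by omega)
    refine ⟨t - iv p (k + 1) ^ 2 - p ^ 2 * iv p (k + 1) ^ 2 * t, ?_⟩
    rw [Nat.cast_mul] at ht ⊢
    generalize (((p - 1).choose (k + 1 + 1) : ℕ) : ℤ_[p]) = A at *
    generalize (((p - 1 + (k + 1 + 1)).choose (k + 1 + 1) : ℕ) : ℤ_[p]) = B at *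
    generalize (((p - 1).choose (k + 1) : ℕ) : ℤ_[p]) = A' at *
    generalize (((p - 1 + (k + 1)).choose (k + 1) : ℕ) : ℤ_[p]) = B' at *
    generalize iv p (k + 1) = i at *
    generalize ((k + 1 + 1 : ℕ) : ℤ_[p]) = y at *
    generalize ((k + 1 : ℕ) : ℤ_[p]) = x at *
    have e3 : A * B * y ^ 2 = A' * B' * ((p - y) * (p + x)) := by
      linear_combination (B * y) * e1' + (A' * (p - y)) * e2'
    have e4 : A' * B' = i ^ 2 * ((-1) ^ k * p * (p - x) * (1 + p ^ 2 * t)) := by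
      rw [← ht]; linear_combination (-(A' * B') * (x * i + 1)) * hi
    rw [e3, e4, pow_succ (-1 : ℤ_[p])]
    linear_combination (-((-1) ^ k * p * (1 + p ^ 2 * t) * (p - y) * (x * i + 1))) * hi

lemma sum_even {s : ℕ} (h0 : 0 < s) (hs : s < p - 1) : (p : ℤ_[p]) ∣ ∑ k ∈ Icc 1 (p - 1), iv p k ^ s := by
  rw [← Ideal.mem_span_singleton, ← PadicInt.maximalIdeal_eq_span_p, ← PadicInt.ker_toZMod,
    RingHom.mem_ker, map_sum]
  have h1 : ∀ k ∈ Icc 1 (p - 1), PadicInt.toZMod (iv p k ^ s) = ((k : ZMod p)⁻¹) ^ s := by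
    intro k hk
    rw [mem_Icc] at hk
    have := congrArg PadicInt.toZMod (mul_iv (p := p) hk.1 (by omega))
    rw [map_mul, map_natCast, map_one] at this
    rw [map_pow, eq_inv_of_mul_eq_one_right this]
  rw [Finset.sum_congr rfl h1]
  have h2 := FiniteField.sum_pow_lt_card_sub_one (ZMod p) s (by rwa [ZMod.card])
  rw [← Equiv.sum_comp (Equiv.inv (ZMod p))] at h2
  rw [← h2]
  have hp0 := hp.out.pos
  have h3 : ∑ x : ZMod p, (Equiv.inv (ZMod p) x) ^ s = ∑ k ∈ range p, ((k : ZMod p)⁻¹) ^ s := by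
    symm
    refine Finset.sum_nbij' (fun k => (k : ZMod p)) (fun x => x.val) ?_ ?_ ?_ ?_ ?_
    · intro _ _; exact mem_univ _
    · intro x _; exact mem_range.2 (ZMod.val_lt x)
    · intro k hk; exact ZMod.val_cast_of_lt (mem_range.1 hk)
    · intro x _; exact ZMod.natCast_zmod_val x
    · intro _ _; rfl
  rw [h3]
  apply Finset.sum_subset
  · intro k hk; rw [mem_Icc] at hk; exact mem_range.2 (by omega)
  · intro k hk hk'
    rw [mem_range] at hk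
    rw [mem_Icc] at hk'
    obtain rfl : k = 0 := by omega
    simp [h0.ne']

lemma sum_odd {r : ℕ} (hs : 2 * r + 2 < p - 1) :
    (p : ℤ_[p]) ^ 2 ∣ ∑ k ∈ Icc 1 (p - 1), iv p k ^ (2 * r + 1) := by
  have h1 : ∑ k ∈ Icc 1 (p - 1), iv p (p - k) ^ (2 * r + 1) =
      ∑ k ∈ Icc 1 (p - 1), iv p k ^ (2 * r + 1) := by
    refine Finset.sum_nbij' (fun k => p - k) (fun k => p - k) ?_ ?_ ?_ ?_ ?_
    · intro k hk; rw [mem_Icc] at hk ⊢; omega
    · intro k hk; rw [mem_Icc] at hk ⊢; omega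
    · intro k hk; rw [mem_Icc] at hk; omega
    · intro k hk; rw [mem_Icc] at hk; omega
    · intro _ _; rfl
  have h2 : (p : ℤ_[p]) ^ 2 ∣ ∑ k ∈ Icc 1 (p - 1), (iv p (p - k) ^ (2 * r + 1) + iv p k ^ (2 * r + 1) +
      p * (2 * r + 1 : ℕ) * iv p k ^ (2 * r + 2)) := by
    refine Finset.dvd_sum fun k hk => ?_
    rw [mem_Icc] at hk
    have a1 := mul_iv (p := p) hk.1 (by omega)
    have a2 := mul_iv (p := p) (k := p - k) (by omega) (by omega)
    rw [Nat.cast_sub (by omega)] at a2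
    generalize iv p (p - k) = j at *
    generalize iv p k = i at *
    have a3 : j = -i + p * (i * j) := by linear_combination (-j) * a1 - i * a2
    obtain ⟨w, hw⟩ := sq_dvd_add_pow_sub_sub (p * (i * j)) (-i) (2 * r + 1)
    rw [← a3, Nat.add_sub_cancel, Even.neg_pow (by simp), Odd.neg_pow (by simp)] at hw
    refine ⟨(i * j) ^ 2 * w + (2 * r + 1 : ℕ) * i ^ (2 * r + 2) * j, ?_⟩
    linear_combination hw + (p * ((2 * r + 1 : ℕ) : ℤ_[p]) * i ^ (2 * r + 1)) * a3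
  rw [Finset.sum_add_distrib, Finset.sum_add_distrib, h1, ← Finset.mul_sum] at h2
  obtain ⟨z, hz⟩ := sum_even (p := p) (s := 2 * r + 2) (by omega) hs
  rw [hz] at h2
  have h3 := (dvd_add_left (⟨(2 * r + 1 : ℕ) * z, by ring⟩ :
    (p : ℤ_[p]) ^ 2 ∣ p * (2 * r + 1 : ℕ) * (p * z))).1 h2
  rw [← two_mul] at h3
  have h4 : IsUnit (2 : ℤ_[p]) := by exact_mod_cast unit_k (p := p) (k := 2) (by omega) (by omega)
  exact h4.dvd_mul_left.1 h3

lemma main (m : ℕ) (h : 2 * m + 5 < p) : (p : ℤ) ^ 4 ∣ u m (p - 1) := by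
  have h1 : (p : ℤ_[p]) ^ 4 ∣ ∑ k ∈ Icc 1 (p - 1),
      (((p - 1).choose k * (p - 1 + k).choose k : ℕ) : ℤ_[p]) ^ 2 * iv p k ^ (2 * m + 1) := by
    have h2 : (p : ℤ_[p]) ^ 4 ∣ ∑ k ∈ Icc 1 (p - 1),
        ((((p - 1).choose k * (p - 1 + k).choose k : ℕ) : ℤ_[p]) ^ 2 * iv p k ^ (2 * m + 1) -
          (p ^ 2 * iv p k ^ (2 * (m + 1) + 1) - 2 * p ^ 3 * iv p k ^ (2 * m + 4))) := by
      refine Finset.dvd_sum fun k hk => ?_
      rw [mem_Icc] at hk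
      obtain ⟨k, rfl⟩ : ∃ j, k = j + 1 := ⟨k - 1, by omega⟩
      obtain ⟨t, ht⟩ := coeff (p := p) k (by omega)
      have hi := mul_iv (p := p) hk.1 (by omega)
      generalize (((p - 1).choose (k + 1) * (p - 1 + (k + 1)).choose (k + 1) : ℕ) : ℤ_[p]) = c at *
      generalize iv p (k + 1) = i at *
      generalize ((k + 1 : ℕ) : ℤ_[p]) = x at *
      have e1 : c = (-1) ^ k * p * (p * i ^ 2 - i) * (1 + p ^ 2 * t) := by
        linear_combination i ^ 2 * ht - (c * (x * i + 1) + (-1) ^ k * p * i * (1 + p ^ 2 * t)) * hi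
      have e2 : ((-1 : ℤ_[p]) ^ k) ^ 2 = 1 := by rw [← pow_mul, Even.neg_one_pow (by simp)]
      refine ⟨i ^ (2 * m + 1) * (i ^ 4 + (p * i ^ 2 - i) ^ 2 * (2 * t + p ^ 2 * t ^ 2)), ?_⟩
      rw [e1, mul_pow, mul_pow, mul_pow, e2]
      ring
    rw [Finset.sum_sub_distrib, Finset.sum_sub_distrib, ← Finset.mul_sum, ← Finset.mul_sum] at h2
    obtain ⟨y, hy⟩ := sum_odd (p := p) (r := m + 1) (by omega)
    obtain ⟨z, hz⟩ := sum_even (p := p) (s := 2 * m + 4) (by omega) (by omega)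
    rw [hy, hz] at h2
    exact (dvd_sub_left (⟨y - 2 * z, by ring⟩ :
      (p : ℤ_[p]) ^ 4 ∣ p ^ 2 * (p ^ 2 * y) - 2 * p ^ 3 * (p * z))).1 h2
  obtain ⟨z, hz⟩ := h1
  have h3 : ((S m (p - 1) : ℚ) : ℚ_[p]) = ((p : ℤ_[p]) ^ 4 * z : ℤ_[p]) := by
    rw [← hz, S]
    change _ = PadicInt.Coe.ringHom _
    rw [map_sum]
    push_cast
    refine Finset.sum_congr rfl fun k hk => ?_
    rw [mem_Icc] at hk
    have hi := congrArg (PadicInt.Coe.ringHom (p := p)) (mul_iv (p := p) hk.1 (by omega))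
    simp only [map_mul, map_natCast, map_one, map_pow] at hi ⊢
    rw [eq_inv_of_mul_eq_one_right hi, div_eq_mul_inv, inv_pow, mul_pow]
  rw [← PadicInt.pow_p_dvd_int_iff]
  refine ⟨z * (S m (p - 1)).den, Subtype.ext ?_⟩
  have h4 : ((u m (p - 1) : ℤ) : ℚ_[p]) = ((S m (p - 1) : ℚ) : ℚ_[p]) * (S m (p - 1)).den := by
    rw [u]; exact_mod_cast (Rat.mul_den_eq_num _).symm
  rw [h3] at h4
  push_cast at h4 ⊢
  rw [h4]; ring

theorem result :
    (∀ m p : ℕ, p.Prime → 2 * m + 5 < p → (p : ℤ) ^ 4 ∣ u m (p - 1)) ∧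
    ∀ m : ℕ, ∃ E : Finset ℕ, (∀ q ∈ E, q.Prime) ∧
      ∀ p : ℕ, p.Prime → p ∉ E → u m (p - 1) ≡ 0 [ZMOD (p : ℤ) ^ 4] := by
  have key : ∀ m p : ℕ, p.Prime → 2 * m + 5 < p → (p : ℤ) ^ 4 ∣ u m (p - 1) := fun m p hp h =>
    @main p ⟨hp⟩ m h
  refine ⟨key, fun m => ⟨(range (2 * m + 6)).filter Nat.Prime, fun q hq => (mem_filter.1 hq).2,
    fun p hp hE => Int.modEq_zero_iff_dvd.2 (key m p hp ?_)⟩⟩
  simp only [mem_filter, mem_range, hp, and_true] at hE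
  omega

end Pool.Agent.Results.MP_a0b46e_nt.Super
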